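import Mathlib

/-!
# Local finiteness and the finite model property for finite products of ordinal frames

We prove that for every finite family of nonzero ordinals the modal algebras of the direct
products of the frames `(α_i, ≤)` and of the frames `(α_i, <)` are locally finite, and that the
logics of these products have the finite model property.
-/

namespace Pool.Agent.R620.OrdProd

universe u v

/-! ### Definitions used in the statement -/

section Defs

variable {W : Type u}

/-- The operator `◇X = {w : ∃ v ∈ X, w R v}` of the modal algebra of the frame `(W,R)`. -/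
def dia (R : W → W → Prop) (X : Set W) : Set W := {w | ∃ v ∈ X, R w v}

/-- `𝒜` is (the carrier of) a subalgebra of the modal algebra of `(W,R)`. -/
structure IsSub (R : W → W → Prop) (𝒜 : Set (Set W)) : Prop where
  empty_mem : ∅ ∈ 𝒜
  compl_mem : ∀ X ∈ 𝒜, Xᶜ ∈ 𝒜
  union_mem : ∀ X ∈ 𝒜, ∀ Y ∈ 𝒜, X ∪ Y ∈ 𝒜
  dia_mem : ∀ X ∈ 𝒜, dia R X ∈ 𝒜

/-- The subalgebra generated by the family `G` of sets. -/
def gen (R : W → W → Prop) (G : Set (Set W)) : Set (Set W) := ⋂₀ {𝒜 | IsSub R 𝒜 ∧ G ⊆ 𝒜}

/-- The modal algebra of `(W,R)` is locally finite: each finitely generated subalgebra is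
finite. -/
def LocFinite (R : W → W → Prop) : Prop := ∀ G : Set (Set W), G.Finite → (gen R G).Finite

/-- Unimodal formulas. -/
inductive Form : Type
  | var : ℕ → Form
  | bot : Form
  | imp : Form → Form → Form
  | dia : Form → Form

/-- The truth set of a formula under a valuation. -/
def truth (R : W → W → Prop) (V : ℕ → Set W) : Form → Set W
  | .var n => V n
  | .bot => ∅
  | .imp φ ψ => (truth R V φ)ᶜ ∪ truth R V ψ
  | .dia φ => dia R (truth R V φ)

/-- Validity of a formula in the frame `(W,R)`; the logic of the frame is the set of the valid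
formulas. -/
def Valid (R : W → W → Prop) (φ : Form) : Prop := ∀ (V : ℕ → Set W) (w : W), w ∈ truth R V φ

/-- The logic of the frame `(W,R)` has the finite model property: each formula not in the logic
is refuted in some finite frame that validates the logic. -/
def FMP (R : W → W → Prop) : Prop :=
  ∀ φ : Form, ¬ Valid R φ →
    ∃ (F : Type) (_ : Finite F) (_ : Nonempty F) (S : F → F → Prop),
      (∀ ψ : Form, Valid R ψ → Valid S ψ) ∧ ¬ Valid S φ

end Defs

/-- The underlying set of the product of the ordinals `α i`: an ordinal is regarded as the set of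
the smaller ordinals. -/
abbrev Prd {k : ℕ} (α : Fin k → Ordinal.{u}) : Type (u + 1) := ∀ i, Set.Iio (α i)

/-- The relation of the direct product of the frames `(α i, ≤)`. -/
def prodLe {k : ℕ} (α : Fin k → Ordinal.{u}) (x y : Prd α) : Prop := ∀ i, x i ≤ y i

/-- The relation of the direct product of the frames `(α i, <)`. -/
def prodLt {k : ℕ} (α : Fin k → Ordinal.{u}) (x y : Prd α) : Prop := ∀ i, x i < y i

/-! ### Tunable frames -/

section Tun

variable {W : Type v}

/-- Every finite colouring has a finite tuned refinement. -/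
def Tunable (R : W → W → Prop) : Prop :=
  ∀ (C : Type) (_ : Finite C) (c : W → C), ∃ (D : Type) (_ : Finite D) (d : W → D),
    (∀ y y', d y = d y' → c y = c y') ∧
    (∀ y y' z, d y = d y' → R y z → ∃ z', R y' z' ∧ d z' = d z)

lemma Tunable.locFinite {R : W → W → Prop} (h : Tunable R) : LocFinite R := by
  intro G hG
  obtain ⟨n, f, hf⟩ : ∃ (n : ℕ) (f : Fin n → Set W), Set.range f = G := by
    have := hG.to_subtype
    obtain ⟨n, ⟨e⟩⟩ := Finite.exists_equiv_fin G
    refine ⟨n, fun i => (e.symm i).1, ?_⟩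
    ext X
    constructor
    · rintro ⟨i, rfl⟩; exact (e.symm i).2
    · intro hX; exact ⟨e ⟨X, hX⟩, by simp⟩
  obtain ⟨D, hD, d, hd1, hd2⟩ := h (Fin n → Prop) inferInstance (fun w i => w ∈ f i)
  have hsub : IsSub R (Set.range (fun Y : Set D => d ⁻¹' Y)) := by
    refine ⟨⟨∅, by simp⟩, ?_, ?_, ?_⟩
    · rintro _ ⟨Y, rfl⟩; exact ⟨Yᶜ, by simp⟩
    · rintro _ ⟨Y, rfl⟩ _ ⟨Z, rfl⟩; exact ⟨Y ∪ Z, by simp⟩
    · rintro _ ⟨Y, rfl⟩
      refine ⟨{e | ∃ w, d w = e ∧ ∃ v, R w v ∧ d v ∈ Y}, ?_⟩
      ext w
      constructor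
      · rintro ⟨w', hw', v, hv, hvY⟩
        obtain ⟨z', hz', hz''⟩ := hd2 w' w v hw' hv
        exact ⟨z', by simpa [hz''] using hvY, hz'⟩
      · rintro ⟨v, hv, hR⟩
        exact ⟨w, rfl, v, hR, hv⟩
  have hG' : G ⊆ Set.range (fun Y : Set D => d ⁻¹' Y) := by
    rw [← hf]
    rintro _ ⟨i, rfl⟩
    refine ⟨d '' (f i), ?_⟩
    ext w
    constructor
    · rintro ⟨w', hw', he⟩
      have := congrFun (hd1 _ _ he) i
      simpa [← this] using hw'
    · intro hw; exact ⟨w, hw, rfl⟩
  refine Set.Finite.subset (Set.finite_range (fun Y : Set D => d ⁻¹' Y)) ?_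
  exact Set.sInter_subset_of_mem ⟨hsub, hG'⟩

/-- An upper bound for the variables of a formula. -/
def Form.bd : Form → ℕ
  | .var n => n + 1
  | .bot => 0
  | .imp φ ψ => max φ.bd ψ.bd
  | .dia φ => φ.bd

lemma truth_congr (R : W → W → Prop) (V V' : ℕ → Set W) (φ : Form)
    (h : ∀ n < φ.bd, V n = V' n) : truth R V φ = truth R V' φ := by
  induction φ with
  | var n => exact h n (Nat.lt_succ_self n)
  | bot => rfl
  | imp φ ψ ih1 ih2 =>
    simp only [truth]
    rw [ih1 (fun n hn => h n (lt_of_lt_of_le hn (le_max_left _ _))),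
      ih2 (fun n hn => h n (lt_of_lt_of_le hn (le_max_right _ _)))]
  | dia φ ih =>
    simp only [truth]
    rw [ih h]

lemma Tunable.fmp {R : W → W → Prop} (h : Tunable R) : FMP R := by
  intro φ hφ
  simp only [Valid, not_forall] at hφ
  obtain ⟨V, w₀, hw₀⟩ := hφ
  obtain ⟨D, hD, d, hd1, hd2⟩ := h (Fin φ.bd → Prop) inferInstance (fun w i => w ∈ V i)
  set F := Set.range d with hF
  let p : W → F := fun w => ⟨d w, w, rfl⟩
  have hp : ∀ w w', p w = p w' ↔ d w = d w' := by
    intro w w'; exact ⟨fun h => congrArg Subtype.val h, fun h => Subtype.ext h⟩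
  let S : F → F → Prop := fun e e' => ∃ u v, p u = e ∧ p v = e' ∧ R u v
  have key : ∀ (V' : ℕ → Set F) (ψ : Form),
      truth R (fun n => p ⁻¹' (V' n)) ψ = p ⁻¹' (truth S V' ψ) := by
    intro V' ψ
    induction ψ with
    | var n => rfl
    | bot => rfl
    | imp φ ψ ih1 ih2 => simp only [truth]; rw [ih1, ih2]; rfl
    | dia φ ih =>
      simp only [truth]
      rw [ih]
      ext w
      constructor
      · rintro ⟨v, hv, hR⟩
        exact ⟨p v, hv, w, v, rfl, rfl, hR⟩
      · rintro ⟨e, he, u, v, hu, hv, hR⟩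
        obtain ⟨z', hz', hz''⟩ := hd2 u w v ((hp _ _).1 hu) hR
        refine ⟨z', ?_, hz'⟩
        have : p z' = e := by rw [← hv]; exact (hp _ _).2 hz''
        simpa [this] using he
  refine ⟨F, inferInstance, ⟨p w₀⟩, S, ?_, ?_⟩
  · intro ψ hψ V' e
    obtain ⟨_, w, rfl⟩ := e
    have := hψ (fun n => p ⁻¹' (V' n)) w
    rw [key] at this
    exact this
  · intro hS
    have h1 := hS (fun n => p '' (V n)) (p w₀)
    have h2 : w₀ ∈ truth R (fun n => p ⁻¹' (p '' (V n))) φ := by
      rw [key]; exact h1
    apply hw₀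
    rw [truth_congr R V (fun n => p ⁻¹' (p '' (V n))) φ]
    · exact h2
    · intro n hn
      ext w
      constructor
      · intro hw; exact ⟨w, hw, rfl⟩
      · rintro ⟨w', hw', he⟩
        have := congrFun (hd1 _ _ ((hp _ _).1 he)) ⟨n, hn⟩
        simp only at this
        rw [← this]
        exact hw'

end Tun

/-! ### Boxes of ordinals -/

section Box

variable {ι : Type} [DecidableEq ι]

def Box (a b : ι → Ordinal.{u}) : Set (ι → Ordinal.{u}) := {y | ∀ i, a i ≤ y i ∧ y i < b i}

def Rel (E : Set ι) (y z : ι → Ordinal.{u}) : Prop := ∀ i, y i ≤ z i ∧ (i ∈ E → y i < z i)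

def Tuned (B : Set (ι → Ordinal.{u})) {D : Type} (d : (ι → Ordinal.{u}) → D) : Prop :=
  ∀ E : Set ι, ∀ y ∈ B, ∀ y' ∈ B, d y = d y' → ∀ z ∈ B, Rel E y z →
    ∃ z' ∈ B, Rel E y' z' ∧ d z' = d z

def HasRef (B : Set (ι → Ordinal.{u})) {C : Type} (c : (ι → Ordinal.{u}) → C) : Prop :=
  ∃ (D : Type) (_ : Finite D) (d : (ι → Ordinal.{u}) → D),
    (∀ y ∈ B, ∀ y' ∈ B, d y = d y' → c y = c y') ∧ Tuned B d

def Good (B : Set (ι → Ordinal.{u})) : Prop :=
  ∀ (C : Type) (_ : Finite C) (c : (ι → Ordinal.{u}) → C), HasRef B c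

lemma hasRef_split {C : Type} [Finite C] (c : (ι → Ordinal.{u}) → C) (a b : ι → Ordinal.{u})
    (i : ι) (x : Ordinal.{u}) (hax : a i ≤ x) (hxb : x < b i)
    (hU : HasRef (Box (Function.update a i x) b) c)
    (hL : Good (Box a (Function.update b i x))) : HasRef (Box a b) c := by
  classical
  obtain ⟨DU, hDU, dU, hU1, hU2⟩ := hU
  have memU : ∀ y, y ∈ Box (Function.update a i x) b ↔ y ∈ Box a b ∧ x ≤ y i := by
    intro y
    constructor
    · intro hy
      refine ⟨fun j => ?_, ?_⟩
      · by_cases hj : j = i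
        · subst hj
          have := hy j
          simp only [Function.update_self] at this
          exact ⟨hax.trans this.1, this.2⟩
        · have := hy j
          rwa [Function.update_of_ne hj] at this
      · have := hy i
        simp only [Function.update_self] at this
        exact this.1
    · rintro ⟨hy, hx⟩ j
      by_cases hj : j = i
      · subst hj
        simp only [Function.update_self]
        exact ⟨hx, (hy j).2⟩
      · rw [Function.update_of_ne hj]; exact hy j
  have memL : ∀ y, y ∈ Box a (Function.update b i x) ↔ y ∈ Box a b ∧ y i < x := by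
    intro y
    constructor
    · intro hy
      refine ⟨fun j => ?_, ?_⟩
      · by_cases hj : j = i
        · subst hj
          have := hy j
          simp only [Function.update_self] at this
          exact ⟨this.1, this.2.trans hxb⟩
        · have := hy j
          rwa [Function.update_of_ne hj] at this
      · have := hy i
        simp only [Function.update_self] at this
        exact this.2
    · rintro ⟨hy, hx⟩ j
      by_cases hj : j = i
      · subst hj
        simp only [Function.update_self]
        exact ⟨(hy j).1, hx⟩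
      · rw [Function.update_of_ne hj]; exact hy j
  obtain ⟨DL, hDL, dL, hL1, hL2⟩ := hL (C × DU) inferInstance
    (fun y => (c y, dU (Function.update y i x)))
  have memπ : ∀ y ∈ Box a b, Function.update y i x ∈ Box (Function.update a i x) b := by
    intro y hy j
    by_cases hj : j = i
    · subst hj
      simp only [Function.update_self]
      exact ⟨le_rfl, hxb⟩
    · rw [Function.update_of_ne hj, Function.update_of_ne hj]; exact hy j
  refine ⟨DL ⊕ DU, inferInstance, fun y => if y i < x then Sum.inl (dL y) else Sum.inr (dU y),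
    ?_, ?_⟩
  · intro y hy y' hy' he
    by_cases h1 : y i < x <;> by_cases h2 : y' i < x
    · simp only [h1, h2, if_true, Sum.inl.injEq] at he
      exact congrArg Prod.fst (hL1 y ((memL y).2 ⟨hy, h1⟩) y' ((memL y').2 ⟨hy', h2⟩) he)
    · simp [h1, h2] at he
    · simp [h1, h2] at he
    · simp only [h1, h2, if_false, Sum.inr.injEq] at he
      exact hU1 y ((memU y).2 ⟨hy, not_lt.1 h1⟩) y' ((memU y').2 ⟨hy', not_lt.1 h2⟩) he
  · intro E y hy y' hy' he z hz hR
    by_cases h1 : y i < x <;> by_cases h2 : y' i < x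
    · simp only [h1, h2, if_true, Sum.inl.injEq] at he
      by_cases h3 : z i < x
      · obtain ⟨z', hz', hR', he'⟩ := hL2 E y ((memL y).2 ⟨hy, h1⟩) y' ((memL y').2 ⟨hy', h2⟩) he
          z ((memL z).2 ⟨hz, h3⟩) hR
        have hz'' := (memL z').1 hz'
        refine ⟨z', hz''.1, hR', ?_⟩
        simp [hz''.2, h3, he']
      · have hc := congrArg Prod.snd
          (hL1 y ((memL y).2 ⟨hy, h1⟩) y' ((memL y').2 ⟨hy', h2⟩) he)
        simp only at hc
        obtain ⟨z', hz', hR', he'⟩ := hU2 (E \ {i}) _ (memπ y hy) _ (memπ y' hy') hc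
          z ((memU z).2 ⟨hz, not_lt.1 h3⟩) (by
            intro j
            by_cases hj : j = i
            · subst hj
              simp only [Function.update_self]
              exact ⟨not_lt.1 h3, fun h => absurd rfl h.2⟩
            · rw [Function.update_of_ne hj]
              exact ⟨(hR j).1, fun h => (hR j).2 h.1⟩)
        have hz'' := (memU z').1 hz'
        refine ⟨z', hz''.1, ?_, ?_⟩
        · intro j
          by_cases hj : j = i
          · subst hj
            have := (hR' j).1
            simp only [Function.update_self] at this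
            exact ⟨(h2.trans_le this).le, fun _ => h2.trans_le this⟩
          · have := hR' j
            rw [Function.update_of_ne hj] at this
            exact ⟨this.1, fun h => this.2 ⟨h, hj⟩⟩
        · simp [not_lt.2 hz''.2, h3, he']
    · simp [h1, h2] at he
    · simp [h1, h2] at he
    · simp only [h1, h2, if_false, Sum.inr.injEq] at he
      have h3 : ¬ z i < x := not_lt.2 ((not_lt.1 h1).trans (hR i).1)
      obtain ⟨z', hz', hR', he'⟩ := hU2 E y ((memU y).2 ⟨hy, not_lt.1 h1⟩) y'
        ((memU y').2 ⟨hy', not_lt.1 h2⟩) he z ((memU z).2 ⟨hz, not_lt.1 h3⟩) hR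
      have hz'' := (memU z').1 hz'
      refine ⟨z', hz''.1, hR', ?_⟩
      simp [not_lt.2 hz''.2, h3, he']

omit [DecidableEq ι] in
lemma hasRef_top [Finite ι] {C : Type} [Finite C] (c : (ι → Ordinal.{u}) → C)
    (a b : ι → Ordinal.{u}) (hab : ∀ i, a i < b i) :
    ∃ x : ι → Ordinal.{u}, (∀ i, a i ≤ x i ∧ x i < b i) ∧ HasRef (Box x b) c := by
  classical
  let N : Set ι := {i | ∃ t, b i = Order.succ t}
  let bad : C → Prop := fun k => ∃ y ∈ Box a b, ∀ z ∈ Box a b, Rel Nᶜ y z → c z ≠ k
  have hbad : ∀ k : C, ∃ y ∈ Box a b, bad k → ∀ z ∈ Box a b, Rel Nᶜ y z → c z ≠ k := by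
    intro k
    by_cases hk : bad k
    · obtain ⟨y, hy, h⟩ := hk
      exact ⟨y, hy, fun _ => h⟩
    · exact ⟨a, fun i => ⟨le_rfl, hab i⟩, fun h => absurd h hk⟩
  choose Y hY1 hY2 using hbad
  have hx : ∀ i, ∃ x, a i ≤ x ∧ x < b i ∧ (∀ t, b i = Order.succ t → x = t) ∧
      (i ∉ N → ∀ k, Y k i < x) := by
    intro i
    by_cases hi : i ∈ N
    · obtain ⟨t, ht⟩ := hi
      refine ⟨t, ?_, ?_, ?_, ?_⟩
      · have := hab i; rw [ht] at this; exact Order.lt_succ_iff.1 this
      · rw [ht]; exact Order.lt_succ t
      · intro t' ht'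
        exact Order.succ_injective (ht.symm.trans ht')
      · intro h; exact absurd ⟨t, ht⟩ h
    · have hlim : ∀ s, s < b i → Order.succ s < b i := by
        intro s hs
        refine lt_of_le_of_ne (Order.succ_le_of_lt hs) ?_
        intro h; exact hi ⟨s, h.symm⟩
      let f : C → Set.Iio (b i) := fun k => ⟨Y k i, (hY1 k i).2⟩
      have : Nonempty (Set.Iio (b i)) := ⟨⟨a i, hab i⟩⟩
      obtain ⟨M, hM⟩ := (Set.finite_range f).bddAbove
      refine ⟨max (a i) (Order.succ M.1), le_max_left _ _, max_lt (hab i) (hlim _ M.2), ?_, ?_⟩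
      · intro t ht; exact absurd ⟨t, ht⟩ hi
      · intro _ k
        have h1 : f k ≤ M := hM ⟨k, rfl⟩
        have h2 : Y k i ≤ M.1 := h1
        exact lt_of_lt_of_le (Order.lt_succ_of_le h2) (le_max_right _ _)
  choose x hx1 hx2 hx3 hx4 using hx
  refine ⟨x, fun i => ⟨hx1 i, hx2 i⟩, C, inferInstance, c, fun _ _ _ _ h => h, ?_⟩
  have hsub : ∀ y ∈ Box x b, y ∈ Box a b := fun y hy i => ⟨(hx1 i).trans (hy i).1, (hy i).2⟩
  intro E y hy y' hy' _ z hz hR
  have hE : ∀ i ∈ E, i ∉ N := by
    rintro i hi ⟨t, ht⟩
    have h1 := (hR i).2 hi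
    have h2 := (hz i).2
    rw [ht] at h2
    have h3 := (hy i).1
    rw [hx3 i t ht] at h3
    exact absurd (lt_of_le_of_lt h3 h1) (not_lt.2 (Order.lt_succ_iff.1 h2))
  have hk : ¬ bad (c z) := by
    intro hb
    refine hY2 (c z) hb z (hsub z hz) ?_ rfl
    intro i
    by_cases hi : i ∈ N
    · refine ⟨?_, fun h => absurd hi h⟩
      obtain ⟨t, ht⟩ := hi
      have h1 := (hY1 (c z) i).2
      rw [ht] at h1
      have h2 := (hz i).1
      rw [hx3 i t ht] at h2
      exact (Order.lt_succ_iff.1 h1).trans h2
    · have := lt_of_lt_of_le (hx4 i hi (c z)) (hz i).1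
      exact ⟨this.le, fun _ => this⟩
  have hk' : ∃ z' ∈ Box a b, Rel Nᶜ y' z' ∧ c z' = c z := by
    by_contra hcon
    apply hk
    refine ⟨y', hsub y' hy', ?_⟩
    intro z' hz' hR' he
    exact hcon ⟨z', hz', hR', he⟩
  obtain ⟨z', hz', hR', he⟩ := hk'
  refine ⟨z', fun i => ⟨(hy' i).1.trans (hR' i).1, (hz' i).2⟩, ?_, he⟩
  intro i
  exact ⟨(hR' i).1, fun h => (hR' i).2 (hE i h)⟩

theorem good_box [Fintype ι] (b : ι → Ordinal.{u}) : ∀ a, Good (Box a b) := by
  classical
  induction b using WellFoundedLT.induction with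
  | ind b ih =>
    intro a C _ c
    by_cases hab : ∀ i, a i < b i
    · obtain ⟨x, hx, hx'⟩ := hasRef_top c a b hab
      have step : ∀ S : Finset ι, HasRef (Box (fun j => if j ∈ S then a j else x j) b) c := by
        intro S
        induction S using Finset.induction_on with
        | empty => simpa using hx'
        | insert i S hi ihS =>
          refine hasRef_split c _ b i (x i) ?_ (hx i).2 ?_ ?_
          · simp [(hx i).1]
          · convert ihS using 2
            ext j
            by_cases hj : j = i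
            · subst hj; simp [hi]
            · simp [hj]
          · apply ih
            refine lt_of_le_of_ne ?_ ?_
            · intro j
              by_cases hj : j = i
              · subst hj; simpa using (hx j).2.le
              · simp [hj]
            · intro h
              have := congrFun h i
              simp only [Function.update_self] at this
              exact absurd this (hx i).2.ne
      have := step Finset.univ
      simpa using this
    · refine ⟨Unit, inferInstance, fun _ => (), ?_, ?_⟩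
      · intro y hy
        exact absurd (fun i => lt_of_le_of_lt (hy i).1 (hy i).2) hab
      · intro E y hy
        exact absurd (fun i => lt_of_le_of_lt (hy i).1 (hy i).2) hab

end Box

lemma tunable_of_rel {k : ℕ} (α : Fin k → Ordinal.{u}) (E : Set (Fin k))
    (R : Prd α → Prd α → Prop)
    (hR : ∀ x y, R x y ↔ Rel E (fun i => (x i).1) (fun i => (y i).1)) : Tunable R := by
  classical
  intro C _ c
  by_cases hne : Nonempty (Prd α)
  · let e : Prd α → (Fin k → Ordinal.{u}) := fun x i => (x i).1
    let r : (Fin k → Ordinal.{u}) → Prd α := fun y =>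
      if h : ∀ i, y i < α i then fun i => ⟨y i, h i⟩ else Classical.choice hne
    have hre : ∀ x, r (e x) = x := by
      intro x
      have : ∀ i, e x i < α i := fun i => (x i).2
      simp only [r, this, implies_true, dif_pos]
      rfl
    obtain ⟨D, hD, d, hd1, hd2⟩ := good_box α (fun _ => 0) C inferInstance (fun y => c (r y))
    have he : ∀ x, e x ∈ Box (fun _ => 0) α := fun x i => ⟨bot_le, (x i).2⟩
    refine ⟨D, hD, fun x => d (e x), ?_, ?_⟩
    · intro y y' h
      have := hd1 _ (he y) _ (he y') h
      simpa [hre] using this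
    · intro y y' z h hyz
      obtain ⟨z', hz', hR', hz''⟩ := hd2 E _ (he y) _ (he y') h _ (he z) ((hR y z).1 hyz)
      have h0 : ∀ i, z' i < α i := fun i => (hz' i).2
      refine ⟨fun i => ⟨z' i, h0 i⟩, ?_, ?_⟩
      · rw [hR]; exact hR'
      · exact hz''
  · refine ⟨Unit, inferInstance, fun _ => (), ?_, ?_⟩
    · intro y; exact absurd ⟨y⟩ hne
    · intro y; exact absurd ⟨y⟩ hne

lemma tunable_le {k : ℕ} (α : Fin k → Ordinal.{u}) : Tunable (prodLe α) := by
  refine tunable_of_rel α ∅ _ ?_
  intro x y
  simp [prodLe, Rel]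

lemma tunable_lt {k : ℕ} (α : Fin k → Ordinal.{u}) : Tunable (prodLt α) := by
  refine tunable_of_rel α Set.univ _ ?_
  intro x y
  constructor
  · intro h i
    exact ⟨(h i).le, fun _ => h i⟩
  · intro h i
    exact (h i).2 trivial

end Pool.Agent.R620.OrdProd
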