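import Pool.Agent.R620.PrimDefs

/-!
# Primitive quasivarieties generated by a finite Heyting algebra: a finite criterion
-/

set_option autoImplicit false

namespace Pool.Agent.R620.Prim

open Pool.Agent.H877R3.HSC Pool.Agent.H877R3.HSC.RA

/-- forget the top -/
def Alg.ra {X : Type} (R : Alg X) : RA X := ⟨R.inf, R.sup, R.imp, R.bot⟩

/-- add the top `0 → 0` -/
def toAlg {X : Type} (R : RA X) : Alg X := ⟨R.inf, R.sup, R.imp, R.bot, R.imp R.bot R.bot⟩

theorem toAlg_ra {X : Type} (R : RA X) : (toAlg R).ra = R := rfl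

/-- translation of terms -/
def Term.fm : Term → Fm
  | .var i => Fm.var i
  | .bot => Fm.bot
  | .top => Fm.imp Fm.bot Fm.bot
  | .inf s t => Fm.and s.fm t.fm
  | .sup s t => Fm.or s.fm t.fm
  | .imp s t => Fm.imp s.fm t.fm

/-- translation of formulas -/
def ofFm : Fm → Term
  | Fm.var i => .var i
  | Fm.bot => .bot
  | Fm.and s t => .inf (ofFm s) (ofFm t)
  | Fm.or s t => .sup (ofFm s) (ofFm t)
  | Fm.imp s t => .imp (ofFm s) (ofFm t)

/-- the top is `0 → 0` -/
def TopOK {X : Type} (R : Alg X) : Prop := R.top = R.imp R.bot R.bot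

theorem topOK_toAlg {X : Type} (R : RA X) : TopOK (toAlg R) := rfl

theorem eval_fm {X : Type} {R : Alg X} (hR : TopOK R) (v : ℕ → X) (t : Term) :
    R.ra.eval v t.fm = t.eval R v := by
  induction t with
  | var i => rfl
  | bot => rfl
  | top => exact hR.symm
  | inf s t hs ht => simp only [Term.fm, RA.eval, Term.eval, hs, ht]; rfl
  | sup s t hs ht => simp only [Term.fm, RA.eval, Term.eval, hs, ht]; rfl
  | imp s t hs ht => simp only [Term.fm, RA.eval, Term.eval, hs, ht]; rfl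

theorem eval_ofFm {X : Type} (R : Alg X) (v : ℕ → X) (φ : Fm) :
    (ofFm φ).eval R v = R.ra.eval v φ := by
  induction φ with
  | var i => rfl
  | bot => rfl
  | and s t hs ht => simp only [ofFm, RA.eval, Term.eval, hs, ht]; rfl
  | or s t hs ht => simp only [ofFm, RA.eval, Term.eval, hs, ht]; rfl
  | imp s t hs ht => simp only [ofFm, RA.eval, Term.eval, hs, ht]; rfl

/-- validity of quasi-identities in raw algebras -/
def Sat4 {X : Type} (R : RA X) (P : List (Fm × Fm)) (c : Fm × Fm) : Prop :=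
  ∀ v : ℕ → X, (∀ p ∈ P, R.eval v p.1 = R.eval v p.2) → R.eval v c.1 = R.eval v c.2

/-- translation of quasi-identities -/
def qFm (q : QuasiId) : List (Fm × Fm) := q.prem.map fun p => (p.1.fm, p.2.fm)

theorem sat_iff {X : Type} {R : Alg X} (hR : TopOK R) (q : QuasiId) :
    R.Sat q ↔ Sat4 R.ra (qFm q) (q.concl.1.fm, q.concl.2.fm) := by
  unfold Alg.Sat Sat4 qFm
  simp only [List.mem_map, forall_exists_index, and_imp, forall_apply_eq_imp_iff₂, eval_fm hR]

/-- back -/
def mkQ (P : List (Fm × Fm)) (c : Fm × Fm) : QuasiId :=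
  ⟨P.map fun p => (ofFm p.1, ofFm p.2), (ofFm c.1, ofFm c.2)⟩

theorem sat_mkQ {X : Type} (R : Alg X) (P : List (Fm × Fm)) (c : Fm × Fm) :
    R.Sat (mkQ P c) ↔ Sat4 R.ra P c := by
  unfold Alg.Sat Sat4 mkQ
  simp only [List.mem_map, forall_exists_index, and_imp, forall_apply_eq_imp_iff₂, eval_ofFm]

theorem ra_ofHeyting (A : Type) [HeytingAlgebra A] : (ofHeyting A).ra = ofH A := rfl

theorem topOK_ofHeyting (A : Type) [HeytingAlgebra A] : TopOK (ofHeyting A) := by
  simp [TopOK, ofHeyting]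

theorem topOK_of_QV {A : Type} [HeytingAlgebra A] {X : Type} {R : Alg X} (h : QV A X R) :
    TopOK R := by
  have h1 := h ⟨[], (.top, .imp .bot .bot)⟩ (fun v _ => by
    simp [Term.eval, ofHeyting])
  exact h1 (fun _ => R.bot) (by simp)

/-- The diagram of a finite algebra. -/
def diag {m : ℕ} (R : RA (Fin m)) : List (Fm × Fm) :=
  ((List.finRange m ×ˢ List.finRange m).map fun p =>
    (Fm.var (R.inf p.1 p.2), Fm.and (Fm.var p.1) (Fm.var p.2))) ++
  (((List.finRange m ×ˢ List.finRange m).map fun p =>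
    (Fm.var (R.sup p.1 p.2), Fm.or (Fm.var p.1) (Fm.var p.2))) ++
  (((List.finRange m ×ˢ List.finRange m).map fun p =>
    (Fm.var (R.imp p.1 p.2), Fm.imp (Fm.var p.1) (Fm.var p.2))) ++
  [(Fm.var R.bot, Fm.bot)]))

theorem diag_iff {m : ℕ} (R : RA (Fin m)) {Y : Type} (R' : RA Y) (w : ℕ → Y) :
    (∀ p ∈ diag R, R'.eval w p.1 = R'.eval w p.2) ↔ IsHom R R' (fun i => w i) := by
  constructor
  · intro h
    refine ⟨fun a b => ?_, fun a b => ?_, fun a b => ?_, ?_⟩
    · exact h (Fm.var (R.inf a b), Fm.and (Fm.var a) (Fm.var b)) (by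
        simp only [diag, List.mem_append, List.mem_map]
        exact Or.inl ⟨(a, b), by simp, rfl⟩)
    · exact h (Fm.var (R.sup a b), Fm.or (Fm.var a) (Fm.var b)) (by
        simp only [diag, List.mem_append, List.mem_map]
        exact Or.inr (Or.inl ⟨(a, b), by simp, rfl⟩))
    · exact h (Fm.var (R.imp a b), Fm.imp (Fm.var a) (Fm.var b)) (by
        simp only [diag, List.mem_append, List.mem_map]
        exact Or.inr (Or.inr (Or.inl ⟨(a, b), by simp, rfl⟩)))
    · exact h (Fm.var R.bot, Fm.bot) (by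
        simp only [diag, List.mem_append, List.mem_map, List.mem_singleton]
        exact Or.inr (Or.inr (Or.inr trivial)))
  · rintro h p hp
    simp only [diag, List.mem_append, List.mem_map, List.mem_singleton] at hp
    rcases hp with ⟨q, _, rfl⟩ | ⟨q, _, rfl⟩ | ⟨q, _, rfl⟩ | rfl
    · exact h.inf q.1 q.2
    · exact h.sup q.1 q.2
    · exact h.imp q.1 q.2
    · exact h.bot

/-- A finite algebra satisfying the quasi-identities of `R'` is separated by homomorphisms to
`R'`. -/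
theorem sep_of_sat {m : ℕ} (R : RA (Fin m)) {Y : Type} (R' : RA Y)
    (h : ∀ P c, Sat4 R' P c → Sat4 R P c) : Sep R R' := by
  intro x y hxy
  by_contra hno
  push Not at hno
  have h1 : Sat4 R' (diag R) (Fm.var x, Fm.var y) := by
    intro v hv
    exact hno _ ((diag_iff R R' v).1 hv)
  have h2 := h _ _ h1
  have hm : 0 < m := lt_of_le_of_lt (Nat.zero_le _) x.2
  have h3 := h2 (fun i => if h : i < m then ⟨i, h⟩ else ⟨0, hm⟩) ((diag_iff R R _).2 (by
    have : (fun i : Fin m => (if h : (i : ℕ) < m then (⟨i, h⟩ : Fin m) else ⟨0, hm⟩)) =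
        fun i => i := by
      funext i; simp
    rw [this]
    exact ⟨fun _ _ => rfl, fun _ _ => rfl, fun _ _ => rfl, rfl⟩))
  apply hxy
  simpa [RA.eval] using h3

theorem sat_of_sep {X Y : Type} {R : RA X} {R' : RA Y} (hs : Sep R R') {P : List (Fm × Fm)}
    {c : Fm × Fm} (h : Sat4 R' P c) : Sat4 R P c := by
  intro v hv
  by_contra hne
  obtain ⟨f, hf, hne⟩ := hs _ _ hne
  apply hne
  rw [hf.eval, hf.eval]
  apply h
  intro p hp
  rw [← hf.eval, ← hf.eval, hv p hp]

/-- The finite criterion. -/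
def Crit2 (A : Type) [HeytingAlgebra A] (N₁ N₂ : ℕ) : Prop :=
  ∀ m ≤ N₁, ∀ l ≤ N₂, ∀ (B : RA (Fin m)) (C : RA (Fin l)), Sep B (ofH A) → Sep C (ofH A) →
    (∃ g : Fin l → Fin m, Function.Surjective g ∧ IsHom C B g) → Sep B C

theorem qv_of_sep {A : Type} [HeytingAlgebra A] {X : Type} {R : RA X} (h : Sep R (ofH A)) :
    QV A X (toAlg R) := by
  intro q hq
  rw [sat_iff (topOK_toAlg R)]
  rw [sat_iff (topOK_ofHeyting A)] at hq
  exact sat_of_sep h hq

theorem crit2_of_primitive {A : Type} [HeytingAlgebra A] (h : Primitive (QV A)) (N₁ N₂ : ℕ) :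
    Crit2 A N₁ N₂ := by
  intro m _ l _ B C hB hC ⟨g, gs, hg⟩
  obtain ⟨V, ⟨E, hE⟩, hV⟩ := h (fun X R => ∀ q, (toAlg C).Sat q → R.Sat q)
    ⟨{q | (toAlg C).Sat q}, fun X R => Iff.rfl⟩
    (fun X R hR q hq => hR q (qv_of_sep hC q hq))
  have h1 : V _ (toAlg C) := ((hV _ (toAlg C)).1 (fun q hq => hq)).2
  have h2 : V _ (toAlg B) := by
    rw [hE] at h1 ⊢
    intro p hp v
    choose w hw using gs
    have h3 := h1 p hp (fun i => w (v i))
    have h4 : ∀ t : Term, t.eval (toAlg B) v = g (t.eval (toAlg C) (fun i => w (v i))) := by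
      intro t
      rw [← eval_fm (topOK_toAlg B), ← eval_fm (topOK_toAlg C), toAlg_ra, toAlg_ra, hg.eval]
      simp only [hw]
    rw [h4, h4, h3]
  have h3 := (hV _ (toAlg B)).2 ⟨qv_of_sep hB, h2⟩
  refine sep_of_sat B C fun P c hPc => ?_
  have h4 := h3 (mkQ P c) ((sat_mkQ _ _ _).2 hPc)
  rwa [sat_mkQ] at h4

/-! ### from the criterion to primitivity -/

theorem eval_trunc {X : Type} (R : RA X) (v : ℕ → X) (k : ℕ) (φ : Fm) :
    R.eval v (φ.subst (trunc k)) = R.eval (fun i => if i < k then v i else R.bot) φ := by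
  rw [eval_subst]
  congr 1
  funext i
  unfold trunc
  split_ifs <;> rfl

theorem exists_bound_q (P : List (Fm × Fm)) (c : Fm × Fm) :
    ∃ k, (∀ p ∈ P, p.1.subst (trunc k) = p.1 ∧ p.2.subst (trunc k) = p.2) ∧
      c.1.subst (trunc k) = c.1 ∧ c.2.subst (trunc k) = c.2 := by
  classical
  obtain ⟨k, hk⟩ := exists_bound_finset
    ((P.map Prod.fst).toFinset ∪ (P.map Prod.snd).toFinset ∪ {c.1, c.2})
  refine ⟨k, fun p hp => ⟨hk k le_rfl _ ?_, hk k le_rfl _ ?_⟩, hk k le_rfl _ ?_, hk k le_rfl _ ?_⟩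
  · simp only [Finset.mem_union, List.mem_toFinset, List.mem_map]
    exact Or.inl (Or.inl ⟨p, hp, rfl⟩)
  · simp only [Finset.mem_union, List.mem_toFinset, List.mem_map]
    exact Or.inl (Or.inr ⟨p, hp, rfl⟩)
  · simp
  · simp

/-- the terms as functions on `A` -/
noncomputable def gA (A : Type) [HeytingAlgebra A] (m : ℕ) (φ : Fm) (v : Fin m → A) : A :=
  φ.eval (fun i => if h : i < m then v ⟨i, h⟩ else ⊥)

theorem gA_eq {A : Type} [HeytingAlgebra A] {m : ℕ} {φ ψ : Fm} (h : gA A m φ = gA A m ψ) :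
    Sat4 (ofH A) [] (φ.subst (trunc m), ψ.subst (trunc m)) := by
  intro v _
  simp only [eval_trunc]
  rw [ofH_eval, ofH_eval]
  have h1 := congrFun h (fun i => v i)
  unfold gA at h1
  have h2 : (fun i => if h : i < m then (fun i : Fin m => v i) ⟨i, h⟩ else (⊥ : A)) =
      fun i => if i < m then v i else (ofH A).bot := by
    funext i
    split_ifs <;> rfl
  rwa [h2] at h1

theorem primitive_of_crit2 {A : Type} [HeytingAlgebra A] {n : ℕ} (e : A ≃ Fin n)
    (hcrit : Crit2 A n (n ^ (n ^ n))) : Primitive (QV A) := by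
  classical
  let _ : Fintype A := Fintype.ofEquiv _ e.symm
  have hcard : Fintype.card A = n := by
    rw [Fintype.card_congr e, Fintype.card_fin]
  have hn : 0 < n := lt_of_le_of_lt (Nat.zero_le _) (e ⊥).2
  have hKcard : ∀ m, Fintype.card ((Fin m → A) → A) = n ^ (n ^ m) := by
    intro m; simp [Fintype.card_pi, hcard]
  rintro K' ⟨Q, hQ⟩ hK'
  refine ⟨fun X R => ∀ p ∈ {p : Term × Term | ∀ (Y : Type) (S : Alg Y), K' Y S → S.SatId p},
    R.SatId p, ⟨_, fun X R => Iff.rfl⟩, fun X D => ⟨fun h => ⟨hK' X D h, fun p hp => hp X D h⟩, ?_⟩⟩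
  rintro ⟨hDQ, hDV⟩
  have hDtop := topOK_of_QV hDQ
  rw [hQ]
  intro q hq
  rw [sat_iff hDtop]
  by_contra hno
  unfold Sat4 at hno
  push Not at hno
  obtain ⟨v, hv, hne⟩ := hno
  obtain ⟨k, hk1, hk2, hk3⟩ := exists_bound_q (qFm q) (q.concl.1.fm, q.concl.2.fm)
  -- the subalgebra generated by the values
  let w : ℕ → X := fun i => if i < k then v i else D.ra.bot
  have hw : ∀ φ : Fm, D.ra.eval w φ = D.ra.eval v (φ.subst (trunc k)) := fun φ =>
    (eval_trunc _ _ _ _).symm
  obtain ⟨l0, D0, cl0, -, hs0, hh0, hcl0⟩ := quot_exists (fun φ ψ => D.ra.eval w φ = D.ra.eval w ψ)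
    ⟨fun _ => rfl, fun h => h.symm, fun h h' => h.trans h'⟩
    (fun a a' b b' h1 h2 => by simp only [RA.eval, h1, h2])
    (fun a a' b b' h1 h2 => by simp only [RA.eval, h1, h2])
    (fun a a' b b' h1 h2 => by simp only [RA.eval, h1, h2])
    (K := (Fin k → A) → A) (gA A k) (fun φ ψ h => by
      have h1 := hDQ (mkQ [] (φ.subst (trunc k), ψ.subst (trunc k)))
        ((sat_mkQ _ _ _).2 (gA_eq h))
      rw [sat_mkQ] at h1
      rw [hw, hw]
      exact h1 v (by simp))
  choose rep0 hrep0 using hs0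
  -- D0 embeds in D
  have hemb : Sep D0 D.ra := by
    intro x y hxy
    refine ⟨fun b => D.ra.eval w (rep0 b), ⟨?_, ?_, ?_, ?_⟩, ?_⟩
    · intro a b
      have : D.ra.eval w (rep0 (D0.inf a b)) = D.ra.eval w (Fm.and (rep0 a) (rep0 b)) := by
        rw [← hcl0, hrep0, show Fm.and (rep0 a) (rep0 b) = fm.inf (rep0 a) (rep0 b) from rfl,
          hh0.inf, hrep0, hrep0]
      exact this
    · intro a b
      have : D.ra.eval w (rep0 (D0.sup a b)) = D.ra.eval w (Fm.or (rep0 a) (rep0 b)) := by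
        rw [← hcl0, hrep0, show Fm.or (rep0 a) (rep0 b) = fm.sup (rep0 a) (rep0 b) from rfl,
          hh0.sup, hrep0, hrep0]
      exact this
    · intro a b
      have : D.ra.eval w (rep0 (D0.imp a b)) = D.ra.eval w (Fm.imp (rep0 a) (rep0 b)) := by
        rw [← hcl0, hrep0, show Fm.imp (rep0 a) (rep0 b) = fm.imp (rep0 a) (rep0 b) from rfl,
          hh0.imp, hrep0, hrep0]
      exact this
    · have : D.ra.eval w (rep0 D0.bot) = D.ra.eval w Fm.bot := by
        rw [← hcl0, hrep0, show Fm.bot = fm.bot from rfl, hh0.bot]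
      exact this
    · intro h
      rw [← hcl0, hrep0, hrep0] at h
      exact hxy h
  have hsep0 : Sep D0 (ofH A) := by
    refine sep_of_sat D0 (ofH A) fun P c hPc => sat_of_sep hemb ?_
    have := hDQ (mkQ P c) ((sat_mkQ _ _ _).2 hPc)
    rwa [sat_mkQ] at this
  have hne0 : cl0 q.concl.1.fm ≠ cl0 q.concl.2.fm := by
    intro h
    rw [hcl0, hw, hw] at h
    simp only at hk2 hk3
    rw [hk2, hk3] at h
    exact hne h
  obtain ⟨h0, hh0', hne1⟩ := hsep0 _ _ hne0
  -- the image of `h0`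
  obtain ⟨m, B, clB, hm, hsB, hhB, hclB⟩ := quot_exists (fun φ ψ => h0 (cl0 φ) = h0 (cl0 ψ))
    ⟨fun _ => rfl, fun h => h.symm, fun h h' => h.trans h'⟩
    (fun a a' b b' h1 h2 => by
      rw [show Fm.and a b = fm.inf a b from rfl, show Fm.and a' b' = fm.inf a' b' from rfl,
        hh0.inf, hh0.inf, hh0'.inf, hh0'.inf, h1, h2])
    (fun a a' b b' h1 h2 => by
      rw [show Fm.or a b = fm.sup a b from rfl, show Fm.or a' b' = fm.sup a' b' from rfl,
        hh0.sup, hh0.sup, hh0'.sup, hh0'.sup, h1, h2])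
    (fun a a' b b' h1 h2 => by
      rw [show Fm.imp a b = fm.imp a b from rfl, show Fm.imp a' b' = fm.imp a' b' from rfl,
        hh0.imp, hh0.imp, hh0'.imp, hh0'.imp, h1, h2])
    (K := A) (fun φ => h0 (cl0 φ)) (fun _ _ h => h)
  rw [hcard] at hm
  choose repB hrepB using hsB
  have hcomp : IsHom fm (ofH A) (fun φ => h0 (cl0 φ)) := hh0'.comp hh0
  have hSepB : Sep B (ofH A) := by
    intro x y hxy
    refine ⟨fun b => h0 (cl0 (repB b)), ⟨?_, ?_, ?_, ?_⟩, ?_⟩
    · intro a b
      have : h0 (cl0 (repB (B.inf a b))) = h0 (cl0 (fm.inf (repB a) (repB b))) := by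
        rw [← hclB, hrepB, hhB.inf, hrepB, hrepB]
      rw [this]
      exact hcomp.inf _ _
    · intro a b
      have : h0 (cl0 (repB (B.sup a b))) = h0 (cl0 (fm.sup (repB a) (repB b))) := by
        rw [← hclB, hrepB, hhB.sup, hrepB, hrepB]
      rw [this]
      exact hcomp.sup _ _
    · intro a b
      have : h0 (cl0 (repB (B.imp a b))) = h0 (cl0 (fm.imp (repB a) (repB b))) := by
        rw [← hclB, hrepB, hhB.imp, hrepB, hrepB]
      rw [this]
      exact hcomp.imp _ _
    · have : h0 (cl0 (repB B.bot)) = h0 (cl0 fm.bot) := by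
        rw [← hclB, hrepB, hhB.bot]
      rw [this]
      exact hcomp.bot
    · intro h
      rw [← hclB, hrepB, hrepB] at h
      exact hxy h
  have keyB : ∀ (u : ℕ → Fin m) (φ : Fm), B.eval u φ = clB (φ.subst (fun i => repB (u i))) := by
    intro u φ
    rw [← fm_eval, hhB.eval]
    simp only [hrepB]
  -- identities of `K'` hold in `B`
  have hBV : ∀ φ ψ : Fm, (∀ (Y : Type) (S : Alg Y), K' Y S → ∀ u : ℕ → Y,
      S.ra.eval u φ = S.ra.eval u ψ) → ∀ u : ℕ → Fin m, B.eval u φ = B.eval u ψ := by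
    intro φ ψ h u
    rw [keyB, keyB, hclB]
    congr 1
    rw [hcl0]
    have h1 := hDV (ofFm φ, ofFm ψ) (fun Y S hS u => by
      simp only [eval_ofFm]
      exact h Y S hS u)
    rw [eval_subst, eval_subst]
    have h2 := h1 (fun i => D.ra.eval w (repB (u i)))
    simpa only [eval_ofFm] using h2
  -- the free algebra of `K'`
  have hid : ∀ φ ψ : Fm, Sat4 (ofH A) [] (φ, ψ) → ∀ (Y : Type) (S : Alg Y), K' Y S →
      ∀ u : ℕ → Y, S.ra.eval u φ = S.ra.eval u ψ := by
    intro φ ψ h Y S hS u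
    have h1 := hK' Y S hS (mkQ [] (φ, ψ)) ((sat_mkQ _ _ _).2 h)
    rw [sat_mkQ] at h1
    exact h1 u (by simp)
  obtain ⟨l, C, clC, hl, hsC, hhC, hclC⟩ := quot_exists (fun φ ψ => ∀ (Y : Type) (S : Alg Y),
      K' Y S → ∀ u : ℕ → Y, S.ra.eval u (φ.subst (trunc m)) = S.ra.eval u (ψ.subst (trunc m)))
    ⟨fun _ _ _ _ _ => rfl, fun h Y S hS u => (h Y S hS u).symm,
      fun h h' Y S hS u => (h Y S hS u).trans (h' Y S hS u)⟩
    (fun a a' b b' h1 h2 Y S hS u => by simp only [Fm.subst, RA.eval, h1 Y S hS u, h2 Y S hS u])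
    (fun a a' b b' h1 h2 Y S hS u => by simp only [Fm.subst, RA.eval, h1 Y S hS u, h2 Y S hS u])
    (fun a a' b b' h1 h2 Y S hS u => by simp only [Fm.subst, RA.eval, h1 Y S hS u, h2 Y S hS u])
    (K := (Fin m → A) → A) (gA A m) (fun φ ψ h => hid _ _ (gA_eq h))
  rw [hKcard] at hl
  have hl' : l ≤ n ^ (n ^ n) :=
    hl.trans (Nat.pow_le_pow_right hn (Nat.pow_le_pow_right hn hm))
  choose repC hrepC using hsC
  have keyC : ∀ (u : ℕ → Fin l) (φ : Fm), C.eval u φ = clC (φ.subst (fun i => repC (u i))) := by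
    intro u φ
    rw [← fm_eval, hhC.eval]
    simp only [hrepC]
  have hCK : K' _ (toAlg C) := by
    rw [hQ]
    intro q' hq'
    rw [sat_iff (topOK_toAlg C)]
    intro u hu
    rw [toAlg_ra] at hu ⊢
    rw [keyC, keyC, hclC]
    intro Y S hS z
    have hStop := topOK_of_QV (hK' Y S hS)
    have h1 := (sat_iff hStop q').1 ((hQ Y S).1 hS q' hq')
      (fun i => S.ra.eval z ((repC (u i)).subst (trunc m))) (fun p hp => by
        have h2 := hu p hp
        rw [keyC, keyC, hclC] at h2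
        have h3 := h2 Y S hS z
        rw [Fm.subst_subst, Fm.subst_subst, eval_subst, eval_subst] at h3
        exact h3)
    rw [Fm.subst_subst, Fm.subst_subst, eval_subst, eval_subst]
    exact h1
  have hSepC : Sep C (ofH A) := by
    refine sep_of_sat C (ofH A) fun P c hPc => ?_
    have := hK' _ _ hCK (mkQ P c) ((sat_mkQ _ _ _).2 hPc)
    rwa [sat_mkQ] at this
  -- the surjection
  let vB : ℕ → Fin m := fun i => if h : i < m then ⟨i, h⟩ else B.bot
  have hvB : ∀ φ : Fm, B.eval vB (φ.subst (trunc m)) = B.eval vB φ := by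
    intro φ
    rw [eval_trunc]
    congr 1
    funext i
    simp only [vB]
    split_ifs <;> rfl
  have hwd : ∀ φ, B.eval vB (repC (clC φ)) = B.eval vB φ := by
    intro φ
    have h1 : clC (repC (clC φ)) = clC φ := hrepC _
    rw [hclC] at h1
    have h2 := hBV _ _ h1 vB
    rwa [hvB, hvB] at h2
  have hhomv := isHom_eval B vB
  have hfin := hcrit m hm l hl' B C hSepB hSepC
    ⟨fun x => B.eval vB (repC x), fun j => ⟨clC (Fm.var j), by
      simp only
      rw [hwd]
      simp [RA.eval, vB]⟩, ⟨fun a b => by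
      have h1 : C.inf a b = clC (fm.inf (repC a) (repC b)) := by rw [hhC.inf, hrepC, hrepC]
      rw [h1, hwd]
      exact hhomv.inf _ _, fun a b => by
      have h1 : C.sup a b = clC (fm.sup (repC a) (repC b)) := by rw [hhC.sup, hrepC, hrepC]
      rw [h1, hwd]
      exact hhomv.sup _ _, fun a b => by
      have h1 : C.imp a b = clC (fm.imp (repC a) (repC b)) := by rw [hhC.imp, hrepC, hrepC]
      rw [h1, hwd]
      exact hhomv.imp _ _, by
      have h1 : C.bot = clC fm.bot := by rw [hhC.bot]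
      rw [h1, hwd]
      exact hhomv.bot⟩⟩
  -- conclusion
  have hCq := (sat_iff (topOK_toAlg C) q).1 ((hQ _ _).1 hCK q hq)
  rw [toAlg_ra] at hCq
  have hBq := sat_of_sep hfin hCq
  have key : ∀ φ : Fm, B.eval (fun i => clB (Fm.var i)) φ = clB φ := by
    intro φ
    have h1 := hhB.eval Fm.var φ
    rw [← h1, fm_eval, Fm.subst_var]
  have h9 := hBq (fun i => clB (Fm.var i)) (fun p hp => by
    rw [key, key, hclB]
    congr 1
    rw [hcl0, hw, hw, (hk1 p hp).1, (hk1 p hp).2]
    exact hv p hp)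
  rw [key, key, hclB] at h9
  exact hne1 h9

theorem primitive_iff {A : Type} [HeytingAlgebra A] {n : ℕ} (e : A ≃ Fin n) :
    Primitive (QV A) ↔ Crit2 A n (n ^ (n ^ n)) :=
  ⟨fun h => crit2_of_primitive h _ _, primitive_of_crit2 e⟩

end Pool.Agent.R620.Prim
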