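import Pool.Agent.H877R3.HSC.Decode

/-!
# Primitive quasivarieties: definitions
-/

set_option autoImplicit false

namespace Pool.Agent.R620.Prim

/-- An algebra with carrier `X` in the signature `(∧, ∨, →, 0, 1)`. -/
structure Alg (X : Type) where
  inf : X → X → X
  sup : X → X → X
  imp : X → X → X
  bot : X
  top : X

/-- Terms in the signature `(∧, ∨, →, 0, 1)` over the variables `x 0, x 1, x 2, ...`. -/
inductive Term : Type
  | var (i : ℕ) : Term
  | bot : Term
  | top : Term
  | inf (s t : Term) : Term
  | sup (s t : Term) : Term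
  | imp (s t : Term) : Term

/-- The value of a term in an algebra under an assignment. -/
def Term.eval {X : Type} (R : Alg X) (v : ℕ → X) : Term → X
  | .var i => v i
  | .bot => R.bot
  | .top => R.top
  | .inf s t => R.inf (s.eval R v) (t.eval R v)
  | .sup s t => R.sup (s.eval R v) (t.eval R v)
  | .imp s t => R.imp (s.eval R v) (t.eval R v)

/-- A quasi-identity `s₁ = t₁ ∧ ... ∧ s_k = t_k → s = t` (`k ≥ 0`). -/
structure QuasiId where
  /-- the list of the premises `(s_i, t_i)` -/
  prem : List (Term × Term)
  /-- the conclusion `(s, t)` -/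
  concl : Term × Term

/-- The quasi-identity `q` is valid in the algebra `R`. -/
def Alg.Sat {X : Type} (R : Alg X) (q : QuasiId) : Prop :=
  ∀ v : ℕ → X, (∀ p ∈ q.prem, p.1.eval R v = p.2.eval R v) →
    q.concl.1.eval R v = q.concl.2.eval R v

/-- The identity `p.1 = p.2` is valid in the algebra `R`. -/
def Alg.SatId {X : Type} (R : Alg X) (p : Term × Term) : Prop :=
  ∀ v : ℕ → X, p.1.eval R v = p.2.eval R v

/-- Classes of algebras of the signature. -/
abbrev Class : Type 1 := ∀ X : Type, Alg X → Prop

/-- A quasivariety: the class of all algebras in which all members of some set of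
quasi-identities are valid. -/
def IsQuasivariety (K : Class) : Prop :=
  ∃ Q : Set QuasiId, ∀ (X : Type) (R : Alg X), K X R ↔ ∀ q ∈ Q, R.Sat q

/-- A variety: the class of all algebras in which all members of some set of identities are
valid. -/
def IsVariety (V : Class) : Prop :=
  ∃ E : Set (Term × Term), ∀ (X : Type) (R : Alg X), V X R ↔ ∀ p ∈ E, R.SatId p

/-- The quasivariety `K` is primitive: every subquasivariety `K'` of `K` is a relative variety of
`K`, that is, `K' = K ∩ V` for some variety `V`. -/
def Primitive (K : Class) : Prop :=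
  ∀ K' : Class, IsQuasivariety K' → (∀ (X : Type) (R : Alg X), K' X R → K X R) →
    ∃ V : Class, IsVariety V ∧ ∀ (X : Type) (R : Alg X), K' X R ↔ K X R ∧ V X R

/-- A Heyting algebra as an algebra in the signature `(∧, ∨, →, 0, 1)`. -/
def ofHeyting (A : Type) [HeytingAlgebra A] : Alg A :=
  ⟨fun a b => a ⊓ b, fun a b => a ⊔ b, fun a b => a ⇨ b, ⊥, ⊤⟩

/-- `Q(A)`, the quasivariety generated by the Heyting algebra `A`: the class of all algebras of the
signature in which every quasi-identity valid in `A` is valid. -/
def QV (A : Type) [HeytingAlgebra A] : Class := fun _ R =>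
  ∀ q : QuasiId, (ofHeyting A).Sat q → R.Sat q

end Pool.Agent.R620.Prim
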