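import Pool.Agent.R620.Prim

/-!
# The criterion as a bounded arithmetical statement about the operation tables
-/

set_option autoImplicit false

namespace Pool.Agent.R620.Prim

open Pool.Agent.H877R3.HSC Pool.Agent.H877R3.HSC.RA

/-- The criterion, in terms of the tables. -/
def CritN2 (x : List ℕ) : Prop :=
  ∀ m < xn x + 1, ∀ l < xM x + 1,
  ∀ bi < m ^ (m * m), ∀ bs < m ^ (m * m), ∀ bp < m ^ (m * m), ∀ bb < m,
  ∀ ci < l ^ (l * l), ∀ cs < l ^ (l * l), ∀ cp < l ^ (l * l), ∀ cb < l,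
  SepN m (opc bi m) (opc bs m) (opc bp m) bb (xn x) (xi x) (xs x) (xp x) (xb x) →
  SepN l (opc ci l) (opc cs l) (opc cp l) cb (xn x) (xi x) (xs x) (xp x) (xb x) →
  (∃ g < m ^ l, (∀ j < m, ∃ k < l, dig g m k = j) ∧
    HomN l (opc ci l) (opc cs l) (opc cp l) cb (opc bi m) (opc bs m) (opc bp m) bb
      (fun a => dig g m a)) →
  SepN m (opc bi m) (opc bs m) (opc bp m) bb l (opc ci l) (opc cs l) (opc cp l) cb

namespace Fo

open Pool.Agent.H877R3.HSC.Fo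

/-- The criterion, as a bounded formula. -/
def crit2 : Bf :=
  all 0 (Tm.add n (Tm.c 1)) fun m => all 1 (Tm.add M (Tm.c 1)) fun l =>
  all 2 (Tm.pow m (Tm.mul m m)) fun bi => all 3 (Tm.pow m (Tm.mul m m)) fun bs =>
  all 4 (Tm.pow m (Tm.mul m m)) fun bp => all 5 m fun bb =>
  all 6 (Tm.pow l (Tm.mul l l)) fun ci => all 7 (Tm.pow l (Tm.mul l l)) fun cs =>
  all 8 (Tm.pow l (Tm.mul l l)) fun cp => all 9 l fun cb =>
  Bf.imp (sep 10 m (opT bi m) (opT bs m) (opT bp m) bb n iT sT pT b0)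
  (Bf.imp (sep 10 l (opT ci l) (opT cs l) (opT cp l) cb n iT sT pT b0)
  (Bf.imp (ex 10 (Tm.pow m l) fun g => Bf.and
      (all 11 m fun j => ex 12 l fun k => Bf.eq (digT g m k) j)
      (hom 11 l (opT ci l) (opT cs l) (opT cp l) cb (opT bi m) (opT bs m) (opT bp m) bb
        (fun a => digT g m a)))
  (sep 10 m (opT bi m) (opT bs m) (opT bp m) bb l (opT ci l) (opT cs l) (opT cp l) cb)))

end Fo

set_option maxRecDepth 100000 in
theorem crit2_holds (x : List ℕ) : Fo.crit2.holds x [] ↔ CritN2 x := by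
  simp only [Fo.crit2, Pool.Agent.H877R3.HSC.Fo.hom, Pool.Agent.H877R3.HSC.Fo.sep, Pool.Agent.H877R3.HSC.Fo.all, Pool.Agent.H877R3.HSC.Fo.ex,
    Pool.Agent.H877R3.HSC.Fo.opT, Pool.Agent.H877R3.HSC.Fo.digT, Pool.Agent.H877R3.HSC.Fo.n, Pool.Agent.H877R3.HSC.Fo.b0, Pool.Agent.H877R3.HSC.Fo.iT, Pool.Agent.H877R3.HSC.Fo.sT, Pool.Agent.H877R3.HSC.Fo.pT, Pool.Agent.H877R3.HSC.Fo.P,
    Pool.Agent.H877R3.HSC.Fo.M, Bf.holds, Tm.ev, List.nil_append, List.cons_append,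
    List.getD_cons_zero, List.getD_cons_succ, Nat.reduceAdd]
  rfl

section

variable {A : Type} [HeytingAlgebra A] {n : ℕ} (e : A ≃ Fin n)

theorem sep_toRA_iff {m : ℕ} (B : RA (Fin m)) : Sep B (toRA e) ↔ Sep B (ofH A) := by
  constructor
  · intro h x y hxy
    obtain ⟨f, hf, hne⟩ := h x y hxy
    exact ⟨_, (isHom_toRA_symm e).comp hf, fun h => hne (e.symm.injective h)⟩
  · intro h x y hxy
    obtain ⟨f, hf, hne⟩ := h x y hxy
    exact ⟨_, (isHom_toRA e).comp hf, fun h => hne (e.injective h)⟩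

theorem critN2_iff : CritN2 (tables e) ↔ Crit2 A n (n ^ (n ^ n)) := by
  have rep := rep_tables e
  have hsA : ∀ {m : ℕ} {B : RA (Fin m)} {i s p : ℕ → ℕ → ℕ} {b : ℕ}, Rep B i s p b →
      (SepN m i s p b (xn (tables e)) (xi (tables e)) (xs (tables e)) (xp (tables e))
        (xb (tables e)) ↔ Sep B (ofH A)) := by
    intro m B i s p b hB
    rw [← sep_toRA_iff e]
    exact sepN_iff hB rep
  constructor
  · intro h m hm l hl B C hB hC ⟨g, gs, hg⟩
    obtain ⟨bi, hbi, bs, hbs, bp, hbp, bb, hbb, rB⟩ := rep_code B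
    obtain ⟨ci, hci, cs, hcs, cp, hcp, cb, hcb, rC⟩ := rep_code C
    have h1 := h m (Nat.lt_succ_of_le hm) l (Nat.lt_succ_of_le hl) bi hbi bs hbs bp hbp bb hbb
      ci hci cs hcs cp hcp cb hcb ((hsA rB).2 hB) ((hsA rC).2 hC)
    rw [sepN_iff rB rC] at h1
    apply h1
    have hm0 : 0 < m := lt_of_le_of_lt (Nat.zero_le _) hbb
    obtain ⟨c, hc, h3⟩ := exists_dig l m (fun a => if ha : a < l then g ⟨a, ha⟩ else 0)
      (fun i hi => by simp [hi])
    refine ⟨c, hc, fun j hj => ?_, (homN_iff rC rB g _ fun a => ?_).2 hg⟩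
    · obtain ⟨k, hk⟩ := gs ⟨j, hj⟩
      refine ⟨k, k.2, ?_⟩
      rw [h3 k k.2, dif_pos k.2]
      exact congrArg Fin.val hk
    · rw [h3 a a.2]; simp
  · intro h m hm l hl bi hbi bs hbs bp hbp bb hbb ci hci cs hcs cp hcp cb hcb h1 h2 h3
    obtain ⟨B, rB⟩ := rep_decode bi bs bp bb hbb
    obtain ⟨C, rC⟩ := rep_decode ci cs cp cb hcb
    rw [sepN_iff rB rC]
    refine h m (Nat.le_of_lt_succ hm) l (Nat.le_of_lt_succ hl) B C ((hsA rB).1 h1)
      ((hsA rC).1 h2) ?_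
    obtain ⟨g, hg, hs, hh⟩ := h3
    have hm0 : 0 < m := lt_of_le_of_lt (Nat.zero_le _) hbb
    refine ⟨fun a => ⟨dig g m a, dig_lt hm0 _ _⟩, fun j => ?_,
      (homN_iff rC rB _ _ fun _ => rfl).1 hh⟩
    obtain ⟨k, hk, hkj⟩ := hs j j.2
    exact ⟨⟨k, hk⟩, Fin.ext hkj⟩

end

/-- Primitivity is decided by a primitive recursive function of the tables. -/
theorem main : ∃ f : List ℕ → Bool, Primrec f ∧
    ∀ (A : Type) [HeytingAlgebra A] (n : ℕ) (e : A ≃ Fin n),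
      f (tables e) = true ↔ Primitive (QV A) := by
  obtain ⟨inst, h⟩ := Fo.crit2.primrec.comp (Primrec.id.pair (Primrec.const ([] : List ℕ)))
  refine ⟨_, h, fun A _ n e => ?_⟩
  rw [primitive_iff e, ← critN2_iff e, ← crit2_holds]
  simp

end Pool.Agent.R620.Prim
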